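import Pool.Agent.H76.GH.Targets

/-!
The convolution on the direct side (board ghw, row CVA).
-/

set_option autoImplicit false

namespace Pool.Agent.H35.GH

open MeasureTheory Pool.Agent.H34.GM Pool.Agent.H34.GZ Pool.Agent.H34.GU Pool.Agent.H34.GA
open Pool.Agent.H76.GH

/-- integrals over the half line in the logarithmic scale -/
theorem int_exp (f : ℝ → ℂ) :
    ∫ r in Set.Ioi (0 : ℝ), f r = ∫ x : ℝ, (Real.exp x : ℂ) * f (Real.exp x) := by
  have h := integral_image_eq_integral_abs_deriv_smul (s := Set.univ) (f := Real.exp)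
    (f' := Real.exp) MeasurableSet.univ (fun x _ => (Real.hasDerivAt_exp x).hasDerivWithinAt)
    (Real.exp_injective.injOn) f
  rw [Set.image_univ, Real.range_exp, Measure.restrict_univ] at h
  rw [h]
  congr 1
  ext x
  rw [abs_of_pos (Real.exp_pos x), Complex.real_smul]

/-- the Mellin transform in the logarithmic scale -/
theorem mel_exp (m : ℕ) (φ : ℝ → ℂ) (s : ℂ) :
    MelA m φ s = ∫ x : ℝ, φ (Real.exp x) *
      Complex.exp (-((m : ℂ) * (s + ((m : ℂ) - 1) / 2) * x)) := by
  unfold MelA
  rw [int_exp]
  congr 1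
  ext x
  have h1 : ((Real.exp x : ℝ) : ℂ) ≠ 0 := by
    exact_mod_cast (Real.exp_pos x).ne'
  rw [Complex.cpow_def_of_ne_zero h1]
  have h2 : Complex.log ((Real.exp x : ℝ) : ℂ) = (x : ℂ) := by
    rw [← Complex.ofReal_log (Real.exp_pos x).le, Real.log_exp]
  rw [h2]
  have h3 : ((Real.exp x : ℝ) : ℂ) = Complex.exp (x : ℂ) := Complex.ofReal_exp x
  rw [h3]
  have h4 : Complex.exp (x : ℂ) * (φ (Real.exp x) * Complex.exp ((x : ℂ) *
      (-((m : ℂ) * (s + ((m : ℂ) - 1) / 2)) - 1))) = φ (Real.exp x) *
      (Complex.exp (x : ℂ) * Complex.exp ((x : ℂ) *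
      (-((m : ℂ) * (s + ((m : ℂ) - 1) / 2)) - 1))) := by ring
  rw [h4, ← Complex.exp_add]
  congr 2
  ring

theorem pf_CVA : T_CVA := by
  intro m h A hm hh ψ r0 hr0 hψc hψs
  have hmR : (0 : ℝ) < m := by exact_mod_cast hm
  have hr00 : 0 < r0 := by linarith
  have hA : 0 ≤ A := le_trans (norm_nonneg _) (hh.bd 0)
  -- the function in the logarithmic scale
  obtain ⟨G, hG⟩ : ∃ G : ℝ → ℂ, G = fun x => ψ (Real.exp x) := ⟨_, rfl⟩
  have hGc : Continuous G := by
    rw [hG]
    exact hψc.comp_continuous Real.continuous_exp fun x => Real.exp_pos x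
  have hGs : ∀ x, G x ≠ 0 → |x| ≤ Real.log r0 := by
    intro x hx
    rw [hG] at hx
    obtain ⟨h1, h2⟩ := hψs _ (Real.exp_pos x) hx
    rw [abs_le]
    constructor
    · have := Real.log_le_log (by positivity) h1
      rwa [Real.log_inv, Real.log_exp] at this
    · have := Real.log_le_log (Real.exp_pos x) h2
      rwa [Real.log_exp] at this
  have hGcs : HasCompactSupport G := by
    apply HasCompactSupport.intro (isCompact_Icc (a := -Real.log r0) (b := Real.log r0))
    intro x hx
    by_contra hne
    exact hx (abs_le.1 (hGs x hne))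
  obtain ⟨MG, hMG⟩ := hGcs.exists_bound_of_continuous hGc
  have hcv : ∀ x : ℝ, cv m h ψ (Real.exp x) = ∫ v : ℝ, h v * G (x - v / m) := by
    intro x
    unfold cv
    congr 1
    ext v
    rw [hG]
    simp only
    rw [← Real.exp_add]
    rfl
  refine ⟨?_, ?_, ?_⟩
  · -- continuity
    have hcont : Continuous fun x : ℝ => ∫ v : ℝ, h v * G (x - v / m) := by
      apply continuous_of_dominated (bound := Set.indicator (Set.Icc (-1 : ℝ) 1)
        fun _ => A * MG)
      · intro x
        apply hh.meas.mul
        apply Continuous.aestronglyMeasurable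
        fun_prop
      · intro x
        refine Filter.Eventually.of_forall fun v => ?_
        by_cases hv : h v = 0
        · rw [hv, zero_mul, norm_zero]
          apply Set.indicator_nonneg
          intro _ _
          exact mul_nonneg hA (le_trans (norm_nonneg _) (hMG 0))
        · have h1 : v ∈ Set.Icc (-1 : ℝ) 1 := abs_le.1 (hh.supp v hv)
          rw [Set.indicator_of_mem h1, norm_mul]
          exact mul_le_mul (hh.bd v) (hMG _) (norm_nonneg _) hA
      · rw [integrable_indicator_iff measurableSet_Icc]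
        exact integrableOn_const (by simp)
      · refine Filter.Eventually.of_forall fun v => ?_
        fun_prop
    have h1 : ContinuousOn (fun r : ℝ => ∫ v : ℝ, h v * G (Real.log r - v / m)) (Set.Ioi 0) :=
      hcont.comp_continuousOn (Real.continuousOn_log.mono fun x hx => (ne_of_gt hx))
    refine h1.congr fun r hr => ?_
    have h2 := hcv (Real.log r)
    rw [Real.exp_log hr] at h2
    exact h2
  · -- support
    intro r hr hne
    have hex : ∃ v, h v ≠ 0 ∧ ψ (r * Real.exp (-(v / m))) ≠ 0 := by
      by_contra hcon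
      push Not at hcon
      apply hne
      unfold cv
      have : (fun v : ℝ => h v * ψ (r * Real.exp (-(v / m)))) = fun _ => 0 := by
        ext v
        by_cases hv : h v = 0
        · rw [hv, zero_mul]
        · rw [hcon v hv, mul_zero]
      rw [this]
      simp
    obtain ⟨v, hv, hψv⟩ := hex
    have hv1 := abs_le.1 (hh.supp v hv)
    have hm1 : (1 : ℝ) ≤ m := by exact_mod_cast hm
    have hvm : v / m ≤ 1 := by
      rw [div_le_one hmR]; linarith
    have hvm' : -1 ≤ v / m := by
      rw [le_div_iff₀ hmR]; linarith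
    obtain ⟨h1, h2⟩ := hψs _ (by positivity) hψv
    have he : Real.exp 1 ≤ 3 := by linarith [Real.exp_one_lt_d9]
    have h3 : Real.exp (v / m) ≤ 3 := le_trans (Real.exp_le_exp.2 hvm) he
    have h4 : Real.exp (-(v / m)) ≤ 3 := le_trans (Real.exp_le_exp.2 (by linarith)) he
    have h5 : Real.exp (-(v / m)) * Real.exp (v / m) = 1 := by
      rw [← Real.exp_add, neg_add_cancel, Real.exp_zero]
    have h6 := Real.exp_pos (v / m)
    have h7 := Real.exp_pos (-(v / m))
    constructor
    · rw [mul_inv]
      have h8 : r0⁻¹ ≤ r * 3 := le_trans h1 (mul_le_mul_of_nonneg_left h4 hr.le)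
      linarith
    · have h8 : r = r * Real.exp (-(v / m)) * Real.exp (v / m) := by
        rw [mul_assoc, h5, mul_one]
      rw [h8]
      calc r * Real.exp (-(v / m)) * Real.exp (v / m) ≤ r0 * 3 :=
            mul_le_mul h2 h3 h6.le hr00.le
        _ = 3 * r0 := by ring
  · -- Mellin transform
    intro s
    rw [mel_exp, mel_exp]
    obtain ⟨w, hw⟩ : ∃ w : ℂ, w = (m : ℂ) * (s + ((m : ℂ) - 1) / 2) := ⟨_, rfl⟩
    rw [← hw]
    have hw' : w / m = s + ((m : ℂ) - 1) / 2 := by
      rw [hw]
      have : (m : ℂ) ≠ 0 := by exact_mod_cast (by omega : m ≠ 0)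
      field_simp
    let Φ : ℝ × ℝ → ℂ := fun q => G (q.1 - q.2 / m) * Complex.exp (-(w * (q.1 : ℂ)))
    have hΦ : Continuous Φ := by
      apply Continuous.mul
      · exact hGc.comp (by fun_prop)
      · fun_prop
    set L := Real.log r0 + 1 with hL
    let Kc : Set (ℝ × ℝ) := Set.Icc (-L) L ×ˢ Set.Icc (-1 : ℝ) 1
    have hKc : IsCompact Kc := isCompact_Icc.prod isCompact_Icc
    obtain ⟨MΦ, hMΦ⟩ := hKc.exists_bound_of_continuousOn hΦ.continuousOn
    have hint : Integrable (Function.uncurry fun (x v : ℝ) => h v * Φ (x, v))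
        (volume.prod volume) := by
      have hsub : Function.support (Function.uncurry fun (x v : ℝ) => h v * Φ (x, v)) ⊆ Kc := by
        rintro ⟨x, v⟩ hxv
        have hxv : h v * Φ (x, v) ≠ 0 := hxv
        have hv : h v ≠ 0 := left_ne_zero_of_mul hxv
        have hg : G (x - v / m) ≠ 0 := left_ne_zero_of_mul (right_ne_zero_of_mul hxv)
        have h1 := abs_le.1 (hh.supp v hv)
        have h2 := abs_le.1 (hGs _ hg)
        have hm1 : (1 : ℝ) ≤ m := by exact_mod_cast hm
        have hvm : v / m ≤ 1 := by
          rw [div_le_one hmR]; linarith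
        have hvm' : -1 ≤ v / m := by
          rw [le_div_iff₀ hmR]; linarith
        refine ⟨⟨?_, ?_⟩, h1⟩
        · rw [hL]; linarith
        · rw [hL]; linarith
      rw [← integrableOn_iff_integrable_of_support_subset hsub]
      have hmeas : AEStronglyMeasurable (Function.uncurry fun (x v : ℝ) => h v * Φ (x, v))
          (volume.prod volume) := by
        have h1 : AEStronglyMeasurable (fun q : ℝ × ℝ => h q.2) (volume.prod volume) :=
          hh.meas.comp_snd
        exact h1.mul hΦ.aestronglyMeasurable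
      apply Measure.integrableOn_of_bounded (M := A * MΦ)
      · exact hKc.measure_lt_top.ne
      · exact hmeas
      · rw [ae_restrict_iff' (hKc.measurableSet)]
        refine Filter.Eventually.of_forall fun q hq => ?_
        have h1 : ‖h q.2 * Φ (q.1, q.2)‖ ≤ A * MΦ := by
          rw [norm_mul]
          exact mul_le_mul (hh.bd _) (hMΦ _ hq) (norm_nonneg _) hA
        exact h1
    have hswap := integral_integral_swap hint
    have h1 : (∫ x : ℝ, cv m h ψ (Real.exp x) * Complex.exp (-(w * (x : ℂ)))) =
        ∫ x : ℝ, ∫ v : ℝ, h v * Φ (x, v) := by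
      congr 1
      ext x
      rw [hcv x, ← integral_mul_const]
      congr 1
      ext v
      simp only [Φ]
      ring
    rw [h1, hswap]
    have h2 : ∀ v : ℝ, (∫ x : ℝ, h v * Φ (x, v)) =
        h v * Complex.exp (-((v : ℂ) * (s + ((m : ℂ) - 1) / 2))) *
          ∫ x : ℝ, ψ (Real.exp x) * Complex.exp (-(w * (x : ℂ))) := by
      intro v
      have h3 : (∫ x : ℝ, Φ (x, v)) = ∫ x : ℝ, (fun y : ℝ => G y *
          Complex.exp (-(w * ((y + v / m : ℝ) : ℂ)))) (x - v / m) := by
        congr 1
        ext x
        simp only [Φ, sub_add_cancel]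
      have h5 := integral_sub_right_eq_self (μ := (volume : Measure ℝ)) (fun y : ℝ => G y *
          Complex.exp (-(w * ((y + v / m : ℝ) : ℂ)))) (v / m)
      rw [integral_const_mul, h3]
      have h6 : (∫ y : ℝ, G y * Complex.exp (-(w * ((y + v / m : ℝ) : ℂ)))) =
          Complex.exp (-((v : ℂ) * (s + ((m : ℂ) - 1) / 2))) *
            ∫ x : ℝ, ψ (Real.exp x) * Complex.exp (-(w * (x : ℂ))) := by
        rw [← integral_const_mul]
        congr 1
        ext y
        have h4 : Complex.exp (-(w * ((y + v / m : ℝ) : ℂ))) =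
            Complex.exp (-((v : ℂ) * (s + ((m : ℂ) - 1) / 2))) *
              Complex.exp (-(w * (y : ℂ))) := by
          rw [← Complex.exp_add, ← hw']
          congr 1
          push_cast
          ring
        rw [h4, hG]
        ring
      refine (congrArg (fun z => h v * z) (h5.trans h6)).trans ?_
      exact (mul_assoc _ _ _).symm
    rw [show (fun v : ℝ => ∫ x : ℝ, h v * Φ (x, v)) = _ from funext h2, integral_mul_const]
    rfl

end Pool.Agent.H35.GH
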